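import Pool.Agent.Helper6.MONO.Stmts

/-! Module STS: soundness of the start check. -/

set_option autoImplicit false
noncomputable section
namespace Pool.Agent.Helper6.MONO

open I

/-- the small root of `A + K y² - y` lies between `l` and `h` -/
theorem sts_root {A K l h : ℝ} (hA : 0 ≤ A) (hK : 0 ≤ K) (h1 : 0 < A + K * (l * l) - l)
    (h2 : 0 < h - (A + K * (h * h))) (h3 : 0 < 1 - 2 * (K * h)) (h4 : l ≤ h) :
    4 * K * A < 1 ∧ l ≤ 2 * A / (1 + Real.sqrt (1 - 4 * K * A)) ∧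
      2 * A / (1 + Real.sqrt (1 - 4 * K * A)) ≤ h := by
  have k1 : 4 * K * A < 1 := by
    rcases hK.eq_or_lt with hK0 | hK0
    · rw [← hK0]; norm_num
    · have : K * A < K * (h - K * (h * h)) := by
        apply mul_lt_mul_of_pos_left _ hK0
        linarith
      nlinarith [mul_self_nonneg (1 - 2 * (K * h))]
  have r0 : 0 ≤ Real.sqrt (1 - 4 * K * A) := Real.sqrt_nonneg _
  have r1 : Real.sqrt (1 - 4 * K * A) ^ 2 = 1 - 4 * K * A := Real.sq_sqrt (by linarith)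
  set r := Real.sqrt (1 - 4 * K * A) with hr
  have hKl : K * l ≤ K * h := mul_le_mul_of_nonneg_left h4 hK
  have e1 : 1 - 2 * (K * h) ≤ r := by
    have : K * A ≤ K * (h - K * (h * h)) := by
      apply mul_le_mul_of_nonneg_left _ hK
      linarith
    rw [hr]
    apply Real.le_sqrt_of_sq_le
    nlinarith
  have e2 : r ≤ 1 - 2 * (K * l) := by
    have : K * (l - K * (l * l)) ≤ K * A := by
      apply mul_le_mul_of_nonneg_left _ hK
      linarith
    rw [hr, Real.sqrt_le_left (by linarith)]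
    nlinarith
  refine ⟨k1, ?_, ?_⟩
  · rw [le_div_iff₀ (by linarith)]
    rcases le_total l 0 with hl | hl
    · nlinarith
    · nlinarith
  · rw [div_le_iff₀ (by linarith)]
    have h5 : 0 ≤ h := by
      by_contra hneg
      rw [not_le] at hneg
      nlinarith [mul_nonneg hK (mul_self_nonneg h)]
    nlinarith

theorem sts_SbP {k : ℝ} (h0 : 0 < k) (h2 : k ≤ 2) : 0 ≤ SbP k := by
  unfold SbP
  have : 0 ≤ 1 / (k * k) := by positivity
  have h3 : 0 ≤ (2 - k) * (2 + k) := mul_nonneg (by linarith) (by linarith)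
  exact mul_nonneg h3 this

theorem sts_unit (n : ℕ) : mem ((n : ℝ) / 268435456) (I.pos n n) := by
  have e : (n : ℝ) / 268435456 * 268435456 = n := by field_simp
  exact (mem_pos_iff _ _ _).2 ⟨e.ge, e.le⟩

theorem sts_notb {x : Bool} (h : notb x = true) : x = false := by
  cases x with
  | false => rfl
  | true => exact absurd h (by change ¬ (false = true); simp)

theorem sts_stY {A K : I} {yl yh : ℕ} (h : stY A K yl yh = true) {a k : ℝ} (ha : mem a A)
    (hk : mem k K) (a0 : 0 ≤ a) (k0 : 0 ≤ k) :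
    4 * k * a < 1 ∧ mem (2 * a / (1 + Real.sqrt (1 - 4 * k * a))) (I.pos yl yh) := by
  obtain ⟨h1, h⟩ := band_eq h
  obtain ⟨h2, h⟩ := band_eq h
  obtain ⟨h3, h4⟩ := band_eq h
  have g1 := pos_of_isPos (mem_sub (mem_add ha (mem_mul hk (mem_sqr (sts_unit yl)))) (sts_unit yl))
    h1
  have g2 := pos_of_isPos (mem_sub (sts_unit yh) (mem_add ha (mem_mul hk (mem_sqr (sts_unit yh)))))
    h2
  have g3 := pos_of_isPos (mem_sub mem_one (mem_dbl (mem_mul hk (sts_unit yh)))) h3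
  have g4 : (yl : ℝ) / 268435456 ≤ (yh : ℝ) / 268435456 :=
    div_le_div_of_nonneg_right (le_of_ble h4) (by norm_num)
  obtain ⟨r1, r2, r3⟩ := sts_root a0 k0 g1 g2 g3 g4
  refine ⟨r1, (mem_pos_iff _ _ _).2 ⟨?_, ?_⟩⟩
  · rw [div_le_iff₀ (by norm_num)] at r2
    exact r2
  · rw [le_div_iff₀ (by norm_num)] at r3
    exact r3

theorem st_STS : ST_STS := by
  intro sa sb a0I kI hdI heI yl yh x hB s a0 k hd he hs ha0 hk hhd hhe s0 k0 k2 hd0 hd2 he0
  obtain ⟨b1, hB⟩ := band_eq hB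
  obtain ⟨b2, hB⟩ := band_eq hB
  obtain ⟨b3, hB⟩ := band_eq hB
  obtain ⟨b4, hB⟩ := band_eq hB
  obtain ⟨b5, hB⟩ := band_eq hB
  obtain ⟨b6, hB⟩ := band_eq hB
  obtain ⟨b7, hB⟩ := band_eq hB
  obtain ⟨b8, hB⟩ := band_eq hB
  -- st1
  obtain ⟨c1, hB⟩ := band_eq hB
  have m1 := (mem_inv (mem_mul hk hhd) c1).1
  have ml2 := mem_dbl (mem_add mem_one (mem_mul (mem_dbl hhe) m1))
  -- st2
  obtain ⟨c2, hB⟩ := band_eq hB
  obtain ⟨c3, hB⟩ := band_eq hB
  obtain ⟨c4, hB⟩ := band_eq hB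
  have mg := (mem_inv ml2 c2).1
  have mk2 := (mem_inv (mem_sqr hk) c3).1
  have mhd2 := (mem_inv (mem_sqr hhd) c4).1
  have mSk := mem_mul (mem_mul (mem_sub mem_two hk) (mem_add mem_two hk)) mk2
  have mSh := mem_mul (mem_mul (mem_sub mem_two hhd) (mem_add mem_two hhd)) mhd2
  have mA := mem_add (mem_sqr ha0) mSh
  have mK := mem_mul (mem_mul mSk (mem_sqr mg)) (mem_add mem_one hs)
  have hK0 : 0 ≤ Kst s k hd he := by
    unfold Kst
    exact mul_nonneg (mul_nonneg (sts_SbP k0 k2) (mul_self_nonneg _)) (by linarith)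
  have hA0 : 0 ≤ a0 * a0 + SbP hd := add_nonneg (mul_self_nonneg _) (sts_SbP hd0 hd2)
  obtain ⟨f1, f2⟩ := sts_stY hB mA mK hA0 hK0
  exact ⟨f1, sts_notb b1, ⟨mem_of_le ha0 b2, mem_of_le mem_zero b3, mem_of_le mem_zero b4,
    mem_of_le f2 b5, mem_of_le mem_zero b6, mem_of_le mem_zero b7, mem_of_le mem_zero b8⟩⟩

end Pool.Agent.Helper6.MONO
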